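import Pool.Agent.T6.H50.QN.Defs3

/-! Project QN, module D3N (insurance copy): the numerical integral in dimension three. -/

set_option autoImplicit false

open MeasureTheory Real Filter Topology Set
open scoped ENNReal RealInnerProductSpace

namespace H29.QN

open H50.QN

lemma mono0 (f f' : ℝ → ℝ) (hf : ∀ x, HasDerivAt f (f' x) x) (h0 : ∀ x, 0 ≤ x → 0 ≤ f' x)
    (x : ℝ) (hx : 0 ≤ x) : f 0 ≤ f x := by
  have hd : Differentiable ℝ f := fun x => (hf x).differentiableAt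
  have hm : MonotoneOn f (Ici 0) := by
    apply monotoneOn_of_deriv_nonneg (convex_Ici 0) hd.continuous.continuousOn
      hd.differentiableOn
    intro x hx
    rw [(hf x).deriv]
    exact h0 x (interior_subset hx)
  exact hm (mem_Ici.2 le_rfl) hx hx

lemma A1 (z : ℝ) (hz : 0 ≤ z) : z - z ^ 3 / 6 ≤ sin z := by
  have := mono0 (fun z => sin z - z + z ^ 3 / 6) (fun z => cos z - 1 + z ^ 2 / 2) (fun x => by
    have h1 := ((Real.hasDerivAt_sin x).sub (hasDerivAt_id x)).add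
      ((hasDerivAt_pow 3 x).div_const 6)
    refine h1.congr_deriv ?_
    push_cast
    ring) (fun x _ => by
      have := Real.one_sub_sq_div_two_le_cos (x := x)
      linarith) z hz
  simp only [Real.sin_zero] at this
  linarith

lemma A2 (z : ℝ) (hz : 0 ≤ z) : cos z ≤ 1 - z ^ 2 / 2 + z ^ 4 / 24 := by
  have := mono0 (fun z => 1 - z ^ 2 / 2 + z ^ 4 / 24 - cos z)
    (fun z => sin z - (z - z ^ 3 / 6)) (fun x => by
    have h1 := (((hasDerivAt_const x (1 : ℝ)).sub ((hasDerivAt_pow 2 x).div_const 2)).add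
      ((hasDerivAt_pow 4 x).div_const 24)).sub (Real.hasDerivAt_cos x)
    refine h1.congr_deriv ?_
    push_cast
    ring) (fun x hx => by
      have := A1 x hx
      linarith) z hz
  simp only [Real.cos_zero] at this
  linarith

lemma A3 (z : ℝ) (hz : 0 ≤ z) : sin z ≤ z - z ^ 3 / 6 + z ^ 5 / 120 := by
  have := mono0 (fun z => z - z ^ 3 / 6 + z ^ 5 / 120 - sin z)
    (fun z => 1 - z ^ 2 / 2 + z ^ 4 / 24 - cos z) (fun x => by
    have h1 := (((hasDerivAt_id x).sub ((hasDerivAt_pow 3 x).div_const 6)).add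
      ((hasDerivAt_pow 5 x).div_const 120)).sub (Real.hasDerivAt_sin x)
    refine h1.congr_deriv ?_
    push_cast
    ring) (fun x hx => by
      have := A2 x hx
      linarith) z hz
  simp only [Real.sin_zero] at this
  linarith

lemma A4 (z : ℝ) (hz : 0 ≤ z) : z ^ 3 / 3 - z ^ 5 / 30 ≤ sin z - z * cos z := by
  have := mono0 (fun z => sin z - z * cos z - z ^ 3 / 3 + z ^ 5 / 30)
    (fun z => z * (sin z - (z - z ^ 3 / 6))) (fun x => by
    have h1 := (((Real.hasDerivAt_sin x).sub ((hasDerivAt_id x).mul (Real.hasDerivAt_cos x))).sub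
      ((hasDerivAt_pow 3 x).div_const 3)).add ((hasDerivAt_pow 5 x).div_const 30)
    refine h1.congr_deriv ?_
    simp only [id]
    push_cast
    ring) (fun x hx => by
      have := A1 x hx
      exact mul_nonneg hx (by linarith)) z hz
  simp only [Real.sin_zero] at this
  linarith

lemma A5 (z : ℝ) (hz : 0 ≤ z) :
    sin z - z * cos z ≤ z ^ 3 / 3 - z ^ 5 / 30 + z ^ 7 / 840 := by
  have := mono0 (fun z => z ^ 3 / 3 - z ^ 5 / 30 + z ^ 7 / 840 - (sin z - z * cos z))
    (fun z => z * (z - z ^ 3 / 6 + z ^ 5 / 120 - sin z)) (fun x => by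
    have h1 := ((((hasDerivAt_pow 3 x).div_const 3).sub ((hasDerivAt_pow 5 x).div_const 30)).add
      ((hasDerivAt_pow 7 x).div_const 840)).sub
      ((Real.hasDerivAt_sin x).sub ((hasDerivAt_id x).mul (Real.hasDerivAt_cos x)))
    refine h1.congr_deriv ?_
    simp only [id]
    push_cast
    ring) (fun x hx => by
      have := A3 x hx
      exact mul_nonneg hx (by linarith)) z hz
  simp only [Real.sin_zero] at this
  linarith

lemma v_lo (z : ℝ) (hz : 0 < z) : z ^ 2 / 3 * (1 - z ^ 2 / 10) ≤ vv z := by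
  have h := A4 z hz.le
  unfold vv
  have : z ^ 2 / 3 * (1 - z ^ 2 / 10) = (z ^ 3 / 3 - z ^ 5 / 30) / z := by
    field_simp
    ring
  rw [this]
  have h2 : sin z / z - cos z = (sin z - z * cos z) / z := by
    field_simp
  rw [h2]
  exact div_le_div_of_nonneg_right h hz.le

lemma v_hi (z : ℝ) (hz : 0 < z) (hz2 : z ≤ 3 / 2) : vv z ≤ z ^ 2 / 3 * (1 - z ^ 2 / 11) := by
  have h := A5 z hz.le
  have h3 : sin z - z * cos z ≤ z ^ 3 / 3 - z ^ 5 / 33 := by
    have : z ^ 7 / 840 ≤ z ^ 5 / 330 := by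
      have : z ^ 5 * (z ^ 2 / 840) ≤ z ^ 5 * (1 / 330) := by
        apply mul_le_mul_of_nonneg_left _ (by positivity)
        nlinarith
      linarith [this, (by ring : z ^ 5 * (z ^ 2 / 840) = z ^ 7 / 840)]
    linarith
  unfold vv
  have : z ^ 2 / 3 * (1 - z ^ 2 / 11) = (z ^ 3 / 3 - z ^ 5 / 33) / z := by
    field_simp
    ring
  rw [this]
  have h2 : sin z / z - cos z = (sin z - z * cos z) / z := by
    field_simp
  rw [h2]
  exact div_le_div_of_nonneg_right h3 hz.le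

/-- the integrand -/
noncomputable def ff (z : ℝ) : ℝ := vv z ^ 2 / z ^ 2 * (-log (vv z ^ 2) - 1 + vv z ^ 2)

/-- lower bound -/
noncomputable def gl (z : ℝ) : ℝ :=
  z ^ 2 / 9 * (1 - z ^ 2 / 5) * (-4 * log z + 2 * log 3 - 1 + 2 / 11 * z ^ 2)

/-- upper bound -/
noncomputable def gu (z : ℝ) : ℝ := z ^ 2 / 9 * (-4 * log z + 2 * log 4)

lemma bounds (z : ℝ) (hz : 0 < z) (hz2 : z ≤ 3 / 2) : 0 ≤ ff z ∧ gl z ≤ ff z ∧ ff z ≤ gu z := by
  have hz3 : z ^ 2 ≤ 9 / 4 := by nlinarith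
  have hzp : 0 < z ^ 2 := by positivity
  have hl := v_lo z hz
  have hu := v_hi z hz hz2
  have hl0 : 0 < z ^ 2 / 3 * (1 - z ^ 2 / 10) := by
    apply mul_pos (by positivity)
    linarith
  have hv : 0 < vv z := lt_of_lt_of_le hl0 hl
  have hv2 : 0 < vv z ^ 2 := by positivity
  set φ : ℝ := -log (vv z ^ 2) - 1 + vv z ^ 2 with hφ
  have hφ0 : 0 ≤ φ := by
    have := Real.log_le_sub_one_of_pos hv2
    rw [hφ]; linarith
  have hlog : log (vv z ^ 2) = 2 * log (vv z) := by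
    rw [Real.log_pow]; push_cast; ring
  have hlz : log (z ^ 2) = 2 * log z := by
    rw [Real.log_pow]; push_cast; ring
  -- lower bound for φ
  have hφl : -4 * log z + 2 * log 3 - 1 + 2 / 11 * z ^ 2 ≤ φ := by
    have h1 : log (vv z) ≤ log (z ^ 2 / 3 * (1 - z ^ 2 / 11)) := Real.log_le_log hv hu
    have h2 : 0 < 1 - z ^ 2 / 11 := by linarith
    rw [Real.log_mul (by positivity) h2.ne', Real.log_div hzp.ne' (by norm_num), hlz] at h1
    have h3 := Real.log_le_sub_one_of_pos h2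
    rw [hφ, hlog]
    linarith
  -- upper bound for φ
  have hφu : φ ≤ -4 * log z + 2 * log 4 := by
    have h4 : z ^ 2 / 4 ≤ vv z := by
      refine le_trans ?_ hl
      nlinarith
    have h5 : log (z ^ 2 / 4) ≤ log (vv z) := Real.log_le_log (by positivity) h4
    rw [Real.log_div hzp.ne' (by norm_num), hlz] at h5
    have h6 : vv z ≤ 1 := by
      refine le_trans hu ?_
      nlinarith
    have h7 : vv z ^ 2 ≤ 1 := by nlinarith
    rw [hφ, hlog]
    linarith
  have hw1 : z ^ 2 / 9 * (1 - z ^ 2 / 5) ≤ vv z ^ 2 / z ^ 2 := by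
    rw [le_div_iff₀ hzp]
    have h8 : (z ^ 2 / 3 * (1 - z ^ 2 / 10)) ^ 2 ≤ vv z ^ 2 := by
      apply pow_le_pow_left₀ hl0.le hl
    refine le_trans ?_ h8
    have : (z ^ 2 / 3 * (1 - z ^ 2 / 10)) ^ 2 - z ^ 2 / 9 * (1 - z ^ 2 / 5) * z ^ 2
        = z ^ 8 / 900 := by ring
    have h9 : 0 ≤ z ^ 8 / 900 := by positivity
    linarith
  have hw2 : vv z ^ 2 / z ^ 2 ≤ z ^ 2 / 9 := by
    rw [div_le_iff₀ hzp]
    have h10 : vv z ≤ z ^ 2 / 3 := by
      refine le_trans hu ?_
      nlinarith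
    have h11 : vv z ^ 2 ≤ (z ^ 2 / 3) ^ 2 := pow_le_pow_left₀ hv.le h10 2
    refine le_trans h11 (le_of_eq ?_)
    ring
  have hw0 : 0 ≤ z ^ 2 / 9 * (1 - z ^ 2 / 5) := by
    apply mul_nonneg (by positivity)
    linarith
  have hwv : 0 ≤ vv z ^ 2 / z ^ 2 := by positivity
  refine ⟨mul_nonneg hwv hφ0, ?_, ?_⟩
  · unfold gl ff
    calc z ^ 2 / 9 * (1 - z ^ 2 / 5) * (-4 * log z + 2 * log 3 - 1 + 2 / 11 * z ^ 2)
        ≤ z ^ 2 / 9 * (1 - z ^ 2 / 5) * φ := mul_le_mul_of_nonneg_left hφl hw0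
      _ ≤ vv z ^ 2 / z ^ 2 * φ := mul_le_mul_of_nonneg_right hw1 hφ0
  · unfold gu ff
    calc vv z ^ 2 / z ^ 2 * φ ≤ z ^ 2 / 9 * φ := mul_le_mul_of_nonneg_right hw2 hφ0
      _ ≤ z ^ 2 / 9 * (-4 * log z + 2 * log 4) := mul_le_mul_of_nonneg_left hφu (by positivity)

lemma gu_cont : Continuous gu := by
  have : gu = fun z => z / 9 * (-4 * (z * log z) + 2 * log 4 * z) := by
    funext z
    unfold gu
    ring
  rw [this]
  have h := Real.continuous_mul_log
  fun_prop

lemma gl_cont : Continuous gl := by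
  have : gl = fun z => z / 9 * (1 - z ^ 2 / 5) *
      (-4 * (z * log z) + (2 * log 3 - 1) * z + 2 / 11 * z ^ 3) := by
    funext z
    unfold gl
    ring
  rw [this]
  have h := Real.continuous_mul_log
  fun_prop

lemma ff_meas : Measurable ff := by
  unfold ff vv
  fun_prop

lemma ff_int : IntegrableOn ff (Ioc 0 (3 / 2)) := by
  have hg : IntegrableOn gu (Ioc 0 (3 / 2)) :=
    (gu_cont.continuousOn.integrableOn_Icc).mono_set Ioc_subset_Icc_self
  refine Integrable.mono' hg ff_meas.aestronglyMeasurable ?_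
  rw [ae_restrict_iff' measurableSet_Ioc]
  refine Filter.Eventually.of_forall fun z hz => ?_
  have := bounds z hz.1 hz.2
  rw [Real.norm_eq_abs, abs_of_nonneg this.1]
  exact this.2.2

/-- antiderivative of `gl` -/
noncomputable def Ph (z : ℝ) : ℝ :=
  (-4 * (z ^ 2 / 3 * (z * log z) - z ^ 3 / 9 - z ^ 4 / 25 * (z * log z) + z ^ 5 / 125)
    + (2 * log 3 - 1) * (z ^ 3 / 3 - z ^ 5 / 25) + 2 / 11 * (z ^ 5 / 5 - z ^ 7 / 35)) / 9

lemma Ph_cont : Continuous Ph := by
  unfold Ph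
  have h := Real.continuous_mul_log
  fun_prop

lemma Ph_deriv (z : ℝ) (hz : 0 < z) : HasDerivAt Ph (gl z) z := by
  have hz' := hz.ne'
  have hl := Real.hasDerivAt_log hz'
  have hm := (hasDerivAt_id z).mul hl
  have h1 := (((hasDerivAt_pow 2 z).div_const 3).mul hm)
  have h2 := (((hasDerivAt_pow 4 z).div_const 25).mul hm)
  have h3 := (((h1.sub ((hasDerivAt_pow 3 z).div_const 9)).sub h2).add
    ((hasDerivAt_pow 5 z).div_const 125)).const_mul (-4)
  have h4 := (((hasDerivAt_pow 3 z).div_const 3).sub ((hasDerivAt_pow 5 z).div_const 25)).const_mul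
    (2 * log 3 - 1)
  have h5 := (((hasDerivAt_pow 5 z).div_const 5).sub ((hasDerivAt_pow 7 z).div_const 35)).const_mul
    (2 / 11 : ℝ)
  have h6 := ((h3.add h4).add h5).div_const 9
  refine h6.congr_deriv ?_
  unfold gl
  simp only [id, Pi.mul_apply]
  push_cast
  field_simp
  ring

lemma gl_int : ∫ z in (0 : ℝ)..(3 / 2), gl z = Ph (3 / 2) - Ph 0 :=
  intervalIntegral.integral_eq_sub_of_hasDerivAt_of_le (by norm_num) Ph_cont.continuousOn
    (fun x hx => Ph_deriv x hx.1) (gl_cont.intervalIntegrable _ _)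

lemma val : 9 / 40 ≤ 6 / π * (Ph (3 / 2) - Ph 0) := by
  have h0 : Ph 0 = 0 := by simp [Ph]
  have h1 : log (3 / 2) = log 3 - log 2 := Real.log_div (by norm_num) (by norm_num)
  have h3 : 2 * log 3 ≤ 3 * log 2 + 1 / 8 := by
    have e1 : log 9 = 2 * log 3 := by
      rw [show (9 : ℝ) = 3 ^ 2 by norm_num, Real.log_pow]; push_cast; ring
    have e2 : log 8 = 3 * log 2 := by
      rw [show (8 : ℝ) = 2 ^ 3 by norm_num, Real.log_pow]; push_cast; ring
    have e3 : log (9 / 8) = log 9 - log 8 := Real.log_div (by norm_num) (by norm_num)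
    have e4 := Real.log_le_sub_one_of_pos (by norm_num : (0 : ℝ) < 9 / 8)
    rw [e3, e1, e2] at e4
    linarith
  have hl2 := Real.log_two_gt_d9
  have hpi := Real.pi_lt_d4
  have hpos := Real.pi_pos
  rw [h0, sub_zero, div_mul_eq_mul_div, le_div_iff₀ hpos]
  unfold Ph
  rw [h1]
  nlinarith

theorem d3n : StmD3N := by
  refine ⟨ff_int, ?_⟩
  have hgl : IntegrableOn gl (Ioc 0 (3 / 2)) :=
    (gl_cont.continuousOn.integrableOn_Icc).mono_set Ioc_subset_Icc_self
  have hle : ∫ z in Ioc (0 : ℝ) (3 / 2), gl z ≤ ∫ z in Ioc (0 : ℝ) (3 / 2), ff z :=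
    setIntegral_mono_on hgl ff_int measurableSet_Ioc (fun z hz => (bounds z hz.1 hz.2).2.1)
  rw [← intervalIntegral.integral_of_le (by norm_num : (0 : ℝ) ≤ 3 / 2), gl_int] at hle
  refine le_trans val ?_
  apply mul_le_mul_of_nonneg_left hle
  have := Real.pi_pos
  positivity

end H29.QN
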